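import Pool.Agent.H14.FRU.TDefs

open Set Topology Cardinal

namespace FRU

theorem ADF_pre_length (x : ℕ → Bool) (k : ℕ) : (pre x k).length = k := by
  simp [pre]

theorem ADF_pre_eq {x y : ℕ → Bool} {k l : ℕ} (h : pre x k = pre y l) :
    k = l ∧ ∀ i < k, x i = y i := by
  have h1 : k = l := by
    have := congrArg List.length h
    rwa [ADF_pre_length, ADF_pre_length] at this
  subst h1
  refine ⟨rfl, fun i hi => ?_⟩
  have := List.map_inj_left.1 h i (List.mem_range.2 hi)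
  exact this

/-- below some `d` -/
theorem ADF_bdd {W : Type} [LinearOrder W] {h : W → W → ℕ → List Bool}
    {r : Set W → ℕ → Bool} {A j : Set W → W → ℕ} (hL : Ladder h r A j) (C : Set (DD W))
    (hC : C.Countable) : ∃ d : W, ∀ z ∈ C, ∀ α y, z = Sum.inr (α, y) → α < d := by
  have h1 : {α : W | ∃ y, (Sum.inr (α, y) : DD W) ∈ C}.Countable := by
    have h2 : ((fun z : DD W => (Sum.elim (fun _ => none) (fun p => some p.1) z : Option W)) '' C).Countable :=
      hC.image _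
    refine (h2.preimage (Option.some_injective W)).mono ?_
    rintro α ⟨y, hy⟩
    exact ⟨_, hy, rfl⟩
  obtain ⟨d, hd⟩ := hL.bdd _ h1
  refine ⟨d, ?_⟩
  rintro z hz α y rfl
  exact hd α ⟨y, hz⟩

theorem ADF_core {W : Type} [LinearOrder W]
    {r : Set W → ℕ → Bool} {A j : Set W → W → ℕ} {d : W} {H : DD W → List Bool}
    (hH1 : ∀ s, {z : DD W | (∀ α y, z = Sum.inr (α, y) → α < d) ∧ H z = s}.Finite)
    (hH2 : ∀ X, {z | z ∈ gg r A j X ∧ (∀ α y, z = Sum.inr (α, y) → α < d) ∧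
      ¬ ∃ k, H z = pre (r X) k}.Finite)
    {C : Set (DD W)} (hd : ∀ z ∈ C, ∀ α y, z = Sum.inr (α, y) → α < d)
    (X : Set W) (hX : C ⊆ gg r A j X) (i : ℕ) :
    {z | z ∈ C ∧ ¬ (i < (H z).length ∧ ∃ k, H z = pre (r X) k)}.Finite := by
  refine ((Set.Finite.biUnion (List.finite_length_le Bool i) fun s _ => hH1 s).union (hH2 X)).subset ?_
  rintro z ⟨hz, hz'⟩
  by_cases hi : i < (H z).length
  · right
    exact ⟨hX hz, hd z hz, fun hk => hz' ⟨hi, hk⟩⟩
  · left
    simp only [Set.mem_iUnion]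
    exact ⟨H z, by simpa using hi, hd z hz, rfl⟩

theorem fru_adf (hT : TRCStmt) : ADFStmt := by
  intro W _ h r A j hL X Y hXY
  by_contra hinf
  have hinf' : (gg r A j X ∩ gg r A j Y).Infinite := hinf
  obtain ⟨C, hC1, hC2, hC3⟩ := hinf'.exists_subset_countable_infinite
  obtain ⟨d, hd⟩ := ADF_bdd hL C hC2
  obtain ⟨H, hH1, hH2⟩ := hT W h r A j hL d
  apply hXY
  apply hL.inj
  funext i
  have f1 := ADF_core hH1 hH2 hd X (hC1.trans Set.inter_subset_left) i
  have f2 := ADF_core hH1 hH2 hd Y (hC1.trans Set.inter_subset_right) i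
  obtain ⟨z, hzC, hz⟩ := (hC3.sdiff (f1.union f2)).nonempty
  have hX : i < (H z).length ∧ ∃ k, H z = pre (r X) k := by
    by_contra hk
    exact hz (Or.inl ⟨hzC, hk⟩)
  have hY : i < (H z).length ∧ ∃ k, H z = pre (r Y) k := by
    by_contra hk
    exact hz (Or.inr ⟨hzC, hk⟩)
  obtain ⟨hzi, k, hk⟩ := hX
  obtain ⟨_, l, hl⟩ := hY
  rw [hk, ADF_pre_length] at hzi
  exact (ADF_pre_eq (hk.symm.trans hl)).2 i hzi

end FRU
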