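import Pool.Agent.H43.FRU.ADF

open Set Topology Cardinal Filter

namespace FRU

/-- choice of the sets `X n` -/
theorem NFP_seq {D I : Type} (g : I → Set D) (E : Set D)
    (hE : ∀ F : Finset I, (E \ ⋃ i ∈ F, g i).Infinite)
    (hno : ¬ ∃ E', E' ⊆ E ∧ E'.Infinite ∧ ∀ i, (E' ∩ g i).Finite) :
    ∃ X : ℕ → I, Function.Injective X ∧ ∃ C : ℕ → Set D, ∀ n, (C n).Infinite ∧ (C n).Countable ∧
      C n ⊆ E ∧ C n ⊆ g (X n) := by
  classical
  have step : ∀ F : Finset I, ∃ i, i ∉ F ∧ ((E \ ⋃ i ∈ F, g i) ∩ g i).Infinite := by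
    intro F
    by_contra hc
    push Not at hc
    refine hno ⟨E \ ⋃ i ∈ F, g i, Set.sdiff_subset, hE F, fun i => ?_⟩
    by_cases hi : i ∈ F
    · have : (E \ ⋃ i ∈ F, g i) ∩ g i = ∅ := by
        ext z
        simp only [Set.mem_inter_iff, Set.mem_sdiff, Set.mem_iUnion, Set.mem_empty_iff_false, iff_false]
        rintro ⟨⟨_, h1⟩, h2⟩
        exact h1 ⟨i, hi, h2⟩
      rw [this]
      exact Set.finite_empty
    · simpa using hc i hi
  choose s hs1 hs2 using step
  let F : ℕ → Finset I := fun n => Nat.rec ∅ (fun _ F => insert (s F) F) n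
  have hF : ∀ n, F (n + 1) = insert (s (F n)) (F n) := fun n => rfl
  have hmono : Monotone F := monotone_nat_of_le_succ fun n => by
    rw [hF]; exact Finset.subset_insert _ _
  refine ⟨fun n => s (F n), ?_, ?_⟩
  · have key : ∀ m n, m < n → s (F m) ≠ s (F n) := by
      intro m n hmn he
      have h1 : s (F m) ∈ F (m + 1) := by rw [hF]; exact Finset.mem_insert_self _ _
      have h2 : s (F m) ∈ F n := hmono hmn h1
      rw [he] at h2
      exact hs1 _ h2
    intro m n he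
    rcases lt_trichotomy m n with h | h | h
    · exact absurd he (key m n h)
    · exact h
    · exact absurd he.symm (key n m h)
  · have := fun n => (hs2 (F n)).exists_subset_countable_infinite
    choose C hC1 hC2 hC3 using this
    refine ⟨C, fun n => ⟨hC3 n, hC2 n, fun z hz => (hC1 n hz).1.1, fun z hz => (hC1 n hz).2⟩⟩

theorem fru_nfp (hT : TRCStmt) (hA : ADFStmt) : NFPStmt := by
  classical
  intro W _ h r A j hL E hE
  by_contra hno
  obtain ⟨X, hX, C, hC⟩ := NFP_seq _ E hE hno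
  obtain ⟨d, hd⟩ := ADF_bdd hL (⋃ n, C n) (Set.countable_iUnion fun n => (hC n).2.1)
  obtain ⟨H, hH1, hH2⟩ := hT W h r A j hL d
  obtain ⟨x, φ, hφ, hx⟩ := CompactSpace.tendsto_subseq (fun n => r (X n))
  -- drop the index of `x`
  have hdrop : ∃ N, ∀ n, N ≤ n → r (X (φ n)) ≠ x := by
    by_cases hy : ∃ n, r (X (φ n)) = x
    · obtain ⟨n, hn⟩ := hy
      refine ⟨n + 1, fun m hm he => ?_⟩
      have := hφ.injective (hX (hL.inj (he.trans hn.symm)))
      omega
    · exact ⟨0, fun m _ he => hy ⟨m, he⟩⟩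
  obtain ⟨N, hN⟩ := hdrop
  -- choice of the points
  have hch : ∀ n, ∃ z ∈ C (φ (n + N)), (n < (H z).length ∧ ∃ k, H z = pre (r (X (φ (n + N)))) k) ∧
      ∀ Y, r Y = x → z ∉ gg r A j Y := by
    intro n
    have f1 := ADF_core hH1 hH2 (fun z hz => hd z (Set.mem_iUnion.2 ⟨_, hz⟩)) (X (φ (n + N)))
      (hC (φ (n + N))).2.2.2 n
    by_cases hY : ∃ Y, r Y = x
    · obtain ⟨Y, hY⟩ := hY
      have hne : X (φ (n + N)) ≠ Y := by
        intro he
        exact hN (n + N) (by omega) (by rw [he, hY])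
      have f2 := hA W h r A j hL (X (φ (n + N))) Y hne
      obtain ⟨z, hz1, hz2⟩ := ((hC (φ (n + N))).1.sdiff (f1.union f2)).nonempty
      refine ⟨z, hz1, ?_, ?_⟩
      · by_contra hc
        exact hz2 (Or.inl ⟨hz1, hc⟩)
      · intro Y' hY' hc
        have : Y' = Y := hL.inj (hY'.trans hY.symm)
        subst this
        exact hz2 (Or.inr ⟨(hC (φ (n + N))).2.2.2 hz1, hc⟩)
    · obtain ⟨z, hz1, hz2⟩ := ((hC (φ (n + N))).1.sdiff f1).nonempty
      refine ⟨z, hz1, ?_, fun Y hY' => absurd ⟨Y, hY'⟩ hY⟩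
      by_contra hc
      exact hz2 ⟨hz1, hc⟩
  choose e he1 he2 he3 using hch
  -- values of `H` on infinite sets of indices
  have hlim : ∀ i, ∃ M, ∀ n, M ≤ n → i < n ∧ r (X (φ (n + N))) i = x i := by
    intro i
    have h1 : Tendsto (fun n => r (X (φ n)) i) atTop (𝓝 (x i)) :=
      (tendsto_pi_nhds.1 hx) i
    have h2 : ∀ᶠ n in atTop, r (X (φ n)) i = x i := by
      have h3 : ({x i} : Set Bool) ∈ 𝓝 (x i) := by simp [nhds_discrete]
      exact h1 h3
    obtain ⟨M, hM⟩ := eventually_atTop.1 h2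
    exact ⟨M + i + 1, fun n hn => ⟨by omega, hM (n + N) (by omega)⟩⟩
  have hfin : ∀ S : Set ℕ, S.Infinite → (e '' S).Infinite := by
    intro S hS hf
    -- bounded lengths
    have h1 : ((fun z => (H z).length) '' (e '' S)).Finite := hf.image _
    obtain ⟨B, hB⟩ := h1.bddAbove
    obtain ⟨n, hn, hn'⟩ := hS.exists_gt B
    have h2 : (H (e n)).length ≤ B := hB ⟨e n, ⟨n, hn, rfl⟩, rfl⟩
    have h3 := (he2 n).1
    omega
  refine hno ⟨Set.range e, ?_, ?_, ?_⟩
  · rintro _ ⟨n, rfl⟩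
    exact (hC _).2.2.1 (he1 n)
  · rw [← Set.image_univ]
    exact hfin _ Set.infinite_univ
  · intro Y
    by_contra hinf
    have hinf' : (Set.range e ∩ gg r A j Y).Infinite := hinf
    have hsub : Set.range e ∩ gg r A j Y ⊆ gg r A j Y := Set.inter_subset_right
    have hdd : ∀ z ∈ Set.range e ∩ gg r A j Y, ∀ α y, z = Sum.inr (α, y) → α < d := by
      rintro z ⟨⟨n, rfl⟩, _⟩
      exact hd _ (Set.mem_iUnion.2 ⟨_, he1 n⟩)
    have hY : r Y = x := by
      funext i
      obtain ⟨M, hM⟩ := hlim i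
      have f1 := ADF_core hH1 hH2 hdd Y hsub i
      have f2 : (e '' {n | n < M}).Finite := (Set.finite_lt_nat M).image _
      obtain ⟨z, ⟨⟨n, rfl⟩, hzY⟩, hz⟩ := (hinf'.sdiff (f1.union f2)).nonempty
      have hn : M ≤ n := by
        by_contra hc
        exact hz (Or.inr ⟨n, by simpa using hc, rfl⟩)
      have h1 : i < (H (e n)).length ∧ ∃ k, H (e n) = pre (r Y) k := by
        by_contra hc
        exact hz (Or.inl ⟨⟨⟨n, rfl⟩, hzY⟩, hc⟩)
      obtain ⟨h2, k, hk⟩ := h1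
      obtain ⟨_, l, hl⟩ := he2 n
      rw [hk, ADF_pre_length] at h2
      have h3 := (ADF_pre_eq (hk.symm.trans hl)).2 i h2
      rw [h3, (hM n hn).2]
    obtain ⟨z, ⟨n, rfl⟩, hz⟩ := hinf'.nonempty
    exact he3 n Y hY hz

end FRU
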