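import Pool.Agent.H14.FRU.TDefs

open Set Topology Cardinal

namespace FRU

theorem TRC_pre_length (x : ℕ → Bool) (k : ℕ) : (pre x k).length = k := by
  simp [pre]

/-- the recognizing function -/
def TRC_H {W : Type} (h : W → W → ℕ → List Bool) (d : W) : DD W → List Bool
  | Sum.inl s => s
  | Sum.inr (α, _, ⟨t, a⟩) => if (h d α a.1).length ≤ t.length then t else h d α a.1

theorem TRC_sig (l : ℕ) : {s : Σ t : List Bool, Fin (t.length + 1) | s.1.length ≤ l}.Finite := by
  have h1 : {t : List Bool | t.length ≤ l}.Finite := List.finite_length_le Bool l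
  refine Set.Finite.preimage' (f := fun s : Σ t : List Bool, Fin (t.length + 1) => s.1) h1 ?_
  intro t _
  have h2 : (Set.range (fun a : Fin (t.length + 1) => (⟨t, a⟩ : Σ t : List Bool, Fin (t.length + 1)))).Finite :=
    Set.finite_range _
  refine h2.subset ?_
  rintro ⟨t', a⟩ ht
  have : t' = t := ht
  subst this
  exact ⟨a, rfl⟩

theorem fru_trc : TRCStmt := by
  intro W _ h r A j hL d
  refine ⟨TRC_H h d, ?_, ?_⟩
  · intro s
    set l := s.length with hl
    have f1 : (⋃ a ∈ {a : ℕ | a ≤ l}, {α | α < d ∧ (h d α a).length ≤ l}).Finite :=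
      Set.Finite.biUnion (Set.finite_le_nat l) fun a _ => hL.len d a l
    have f2 := ((Set.finite_singleton (Sum.inl s : DD W)).union
      (((f1.prod ((Set.finite_univ (α := Bool)).prod (TRC_sig l)))).image (fun p => (Sum.inr p : DD W))))
    refine f2.subset ?_
    rintro (s' | ⟨α, i, ⟨t, a⟩⟩) ⟨hz, hH⟩
    · left
      have : s' = s := hH
      rw [this]
      exact Set.mem_singleton _
    · right
      have hα : α < d := hz α _ rfl
      have hH' : (if (h d α a.1).length ≤ t.length then t else h d α a.1) = s := hH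
      have key : (h d α a.1).length ≤ l ∧ t.length ≤ l := by
        split_ifs at hH' with hc
        · subst hH'
          exact ⟨hc, le_rfl⟩
        · rw [hH'] at hc
          rw [hH']
          exact ⟨le_rfl, by omega⟩
      refine ⟨(α, i, ⟨t, a⟩), ⟨?_, Set.mem_univ _, key.2⟩, rfl⟩
      simp only [Set.mem_iUnion]
      exact ⟨a.1, by have := a.2; show a.1 ≤ l; omega, hα, key.1⟩
  · intro X
    have f1 : (⋃ α ∈ {a | a < d ∧ ¬ ((h d a (A X a)).length ≤ j X a ∨
        h d a (A X a) = pre (r X) (h d a (A X a)).length)},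
        ⋃ k ∈ {k : ℕ | k ≤ (h d α (A X α)).length},
        {z : DD W | ∃ i s, z = Sum.inr (α, i, s) ∧ s.1.length ≤ k}).Finite := by
      refine Set.Finite.biUnion (hL.cap X d) fun α _ => Set.Finite.biUnion (Set.finite_le_nat _) fun k _ => ?_
      refine (((Set.finite_univ (α := Bool)).prod (TRC_sig k)).image
        (fun p => (Sum.inr (α, p) : DD W))).subset ?_
      rintro z ⟨i, s, rfl, hs⟩
      exact ⟨(i, s), ⟨Set.mem_univ _, hs⟩, rfl⟩
    refine f1.subset ?_
    rintro z ⟨hz, hd, hH⟩
    rcases hz with ⟨k, rfl⟩ | ⟨α, ⟨t, a⟩, rfl, h1, h2, h3⟩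
    · exact absurd ⟨k, rfl⟩ hH
    · have hα : α < d := hd α _ rfl
      simp only at h1 h2 h3
      by_cases hc : (h d α a.1).length ≤ t.length
      · refine absurd ⟨t.length, ?_⟩ hH
        show (if (h d α a.1).length ≤ t.length then t else h d α a.1) = _
        rw [if_pos hc]
        exact h1
      · simp only [Set.mem_iUnion]
        refine ⟨α, ⟨hα, ?_⟩, t.length, ?_, _, _, rfl, le_rfl⟩
        · rintro (h4 | h4)
          · rw [← h2] at h4
            omega
          · refine hH ⟨(h d α a.1).length, ?_⟩
            show (if (h d α a.1).length ≤ t.length then t else h d α a.1) = _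
            rw [if_neg hc]
            rw [← h2] at h4
            exact h4
        · show t.length ≤ _
          rw [← h2]
          omega

end FRU
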